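import Pool.Agent.H295R2.Beu.Defs

/-!
# Beurling rate project, task A4a (helper495): `KerMeas`, `KerBound`, `KerAnn`
-/

set_option autoImplicit false

open MeasureTheory Filter Topology Set

namespace Pool.Agent.H495R2.BeuA4
open Pool.Agent.H295R2.Beu

theorem psi_meas : Measurable psi := by
  unfold psi
  fun_prop

theorem cpow_meas (s : ℂ) : Measurable (fun w : ℝ => (w : ℂ) ^ s) :=
  Complex.measurable_ofReal.pow_const s

theorem kerMeas : KerMeas := by
  intro s N
  have hf : Measurable (fun p : ℝ × ℝ => ((p.2 : ℝ) : ℂ) ^ s * ((psi (p.1 * p.2) : ℝ) : ℂ)) := by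
    refine ((cpow_meas s).comp measurable_snd).mul ?_
    exact Complex.measurable_ofReal.comp (psi_meas.comp (measurable_fst.mul measurable_snd))
  exact hf.stronglyMeasurable.integral_prod_right'

/-- integrability of `u^β |psi u|` -/
theorem rint (h1 : PsiBound) {β : ℝ} (hβ : -1 < β) (hβ1 : β < 1) :
    IntegrableOn (fun u : ℝ => u ^ β * |psi u|) (Ioi 0) := by
  have hm : Measurable (fun u : ℝ => u ^ β * |psi u|) := by
    have := psi_meas
    fun_prop
  rw [← Ioc_union_Ioi_eq_Ioi (zero_le_one' ℝ)]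
  refine IntegrableOn.union ?_ ?_
  · have hi : IntegrableOn (fun u : ℝ => 24 * u ^ β) (Ioc 0 1) := by
      have := (intervalIntegrable_iff_integrableOn_Ioc_of_le (zero_le_one' ℝ)).1
        (intervalIntegral.intervalIntegrable_rpow' (a := 0) (b := 1) hβ)
      exact this.const_mul 24
    refine Integrable.mono' hi hm.aestronglyMeasurable ?_
    filter_upwards [ae_restrict_mem measurableSet_Ioc] with u hu
    have := (h1 u hu.1).1
    have hp : 0 ≤ u ^ β := Real.rpow_nonneg hu.1.le _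
    rw [Real.norm_eq_abs, abs_mul, abs_abs, abs_of_nonneg hp]
    nlinarith
  · have hi : IntegrableOn (fun u : ℝ => 24 * u ^ (β - 2)) (Ioi 1) :=
      (integrableOn_Ioi_rpow_of_lt (by linarith) one_pos).const_mul 24
    refine Integrable.mono' hi hm.aestronglyMeasurable ?_
    filter_upwards [ae_restrict_mem measurableSet_Ioi] with u hu
    have hu0 : (0:ℝ) < u := lt_trans one_pos hu
    have := (h1 u hu0).2
    have hp : 0 < u ^ β := Real.rpow_pos_of_pos hu0 _
    rw [Real.norm_eq_abs, abs_mul, abs_abs, abs_of_nonneg hp.le, Real.rpow_sub hu0, Real.rpow_two]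
    calc u ^ β * |psi u| ≤ u ^ β * (24 / u ^ 2) := mul_le_mul_of_nonneg_left this hp.le
      _ = _ := by ring

theorem rscale {β v : ℝ} (hv : 0 < v) {w : ℝ} (hw : 0 < w) :
    w ^ β * |psi (v * w)| = v ^ (-β) * ((v * w) ^ β * |psi (v * w)|) := by
  have e : v ^ (-β) * v ^ β = 1 := by
    rw [← Real.rpow_add hv]; simp
  rw [Real.mul_rpow hv.le hw.le]
  calc w ^ β * |psi (v * w)| = (v ^ (-β) * v ^ β) * (w ^ β * |psi (v * w)|) := by rw [e, one_mul]
    _ = _ := by ring

theorem rint_scale (h1 : PsiBound) {β : ℝ} (hβ : -1 < β) (hβ1 : β < 1) {v : ℝ} (hv : 0 < v) :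
    IntegrableOn (fun w : ℝ => w ^ β * |psi (v * w)|) (Ioi 0) ∧
    ∫ w in Ioi (0:ℝ), w ^ β * |psi (v * w)|
      = v ^ (-β - 1) * ∫ u in Ioi (0:ℝ), u ^ β * |psi u| := by
  have hI : IntegrableOn (fun w : ℝ => (v * w) ^ β * |psi (v * w)|) (Ioi 0) := by
    have := (integrableOn_Ioi_comp_mul_left_iff (fun u : ℝ => u ^ β * |psi u|) 0 hv).2
      (by rw [mul_zero]; exact rint h1 hβ hβ1)
    exact this
  constructor
  · refine (IntegrableOn.congr_fun (hI.const_mul (v ^ (-β))) ?_ measurableSet_Ioi)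
    intro w hw
    exact (rscale hv hw).symm
  · have e := integral_comp_mul_left_Ioi (fun u : ℝ => u ^ β * |psi u|) 0 hv
    rw [setIntegral_congr_fun measurableSet_Ioi (fun w hw => rscale hv hw), integral_const_mul, e,
      mul_zero, smul_eq_mul, Real.rpow_sub hv, Real.rpow_one]
    field_simp

theorem ker_norm_le (s : ℂ) {N : ℝ} (hN : 1 ≤ N) (v : ℝ) :
    ‖ker s N v‖ ≤ ∫ w in Ioi (1 / N), w ^ s.re * |psi (v * w)| := by
  refine (norm_integral_le_integral_norm _).trans (le_of_eq ?_)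
  refine setIntegral_congr_fun measurableSet_Ioi (fun w hw => ?_)
  have hw0 : 0 < w := lt_trans (by positivity) (mem_Ioi.1 hw)
  simp only [norm_mul, Complex.norm_cpow_eq_rpow_re_of_pos hw0, Complex.norm_real,
    Real.norm_eq_abs]

theorem kerBound (h1 : PsiBound) : KerBound := by
  intro s hs0 hs1
  have hK : 0 ≤ ∫ u in Ioi (0:ℝ), u ^ s.re * |psi u| :=
    setIntegral_nonneg measurableSet_Ioi
      (fun u hu => mul_nonneg (Real.rpow_nonneg (le_of_lt hu) _) (abs_nonneg _))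
  have h24 : 0 < 24 / (1 - s.re) := div_pos (by norm_num) (by linarith)
  refine ⟨(∫ u in Ioi (0:ℝ), u ^ s.re * |psi u|) + 24 / (1 - s.re), by linarith, ?_⟩
  intro N hN v hv
  have hN0 : 0 < N := by linarith
  have hN1 : (0:ℝ) < 1 / N := by positivity
  obtain ⟨hI, hE⟩ := rint_scale h1 (by linarith) hs1 hv
  have hv1 : 0 < v ^ (-s.re - 1) := Real.rpow_pos_of_pos hv _
  constructor
  · refine (ker_norm_le s hN v).trans ?_
    have : ∫ w in Ioi (1 / N), w ^ s.re * |psi (v * w)| ≤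
        ∫ w in Ioi (0:ℝ), w ^ s.re * |psi (v * w)| := by
      refine setIntegral_mono_set hI ?_ ?_
      · filter_upwards [ae_restrict_mem measurableSet_Ioi] with w hw
        exact mul_nonneg (Real.rpow_nonneg (le_of_lt hw) _) (abs_nonneg _)
      · exact (Ioi_subset_Ioi hN1.le).eventuallyLE
    refine this.trans ?_
    rw [hE, mul_comm]
    exact mul_le_mul_of_nonneg_right (by linarith) hv1.le
  · refine (ker_norm_le s hN v).trans ?_
    have hJ : IntegrableOn (fun w : ℝ => 24 * v ^ (-2:ℝ) * w ^ (s.re - 2)) (Ioi (1 / N)) :=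
      (integrableOn_Ioi_rpow_of_lt (by linarith) hN1).const_mul _
    have : ∫ w in Ioi (1 / N), w ^ s.re * |psi (v * w)| ≤
        ∫ w in Ioi (1 / N), 24 * v ^ (-2:ℝ) * w ^ (s.re - 2) := by
      refine setIntegral_mono_on (hI.mono_set (Ioi_subset_Ioi hN1.le)) hJ measurableSet_Ioi ?_
      intro w hw
      have hw0 : 0 < w := lt_trans hN1 hw
      have h2 := (h1 (v * w) (mul_pos hv hw0)).2
      have hp : 0 < w ^ s.re := Real.rpow_pos_of_pos hw0 _
      rw [Real.rpow_sub hw0, Real.rpow_two, Real.rpow_neg hv.le, Real.rpow_two]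
      calc w ^ s.re * |psi (v * w)| ≤ w ^ s.re * (24 / (v * w) ^ 2) :=
            mul_le_mul_of_nonneg_left h2 hp.le
        _ = _ := by field_simp
    refine this.trans ?_
    rw [integral_const_mul, integral_Ioi_rpow_of_lt (by linarith) hN1]
    have e1 : (1 / N) ^ (s.re - 2 + 1) = N ^ (1 - s.re) := by
      rw [one_div, Real.inv_rpow hN0.le, ← Real.rpow_neg hN0.le]
      congr 1; ring
    have e2 : -(1 / N) ^ (s.re - 2 + 1) / (s.re - 2 + 1) = N ^ (1 - s.re) / (1 - s.re) := by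
      rw [e1]
      have : s.re - 2 + 1 = -(1 - s.re) := by ring
      rw [this, neg_div_neg_eq]
    rw [e2]
    have hNp : 0 < N ^ (1 - s.re) := Real.rpow_pos_of_pos hN0 _
    have hvp : 0 < v ^ (-2:ℝ) := Real.rpow_pos_of_pos hv _
    calc 24 * v ^ (-2:ℝ) * (N ^ (1 - s.re) / (1 - s.re))
        = (24 / (1 - s.re)) * (N ^ (1 - s.re) * v ^ (-2:ℝ)) := by ring
      _ ≤ ((∫ u in Ioi (0:ℝ), u ^ s.re * |psi u|) + 24 / (1 - s.re)) *
          (N ^ (1 - s.re) * v ^ (-2:ℝ)) :=
          mul_le_mul_of_nonneg_right (by linarith) (by positivity)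
      _ = _ := by ring

theorem cnorm {s : ℂ} {v w : ℝ} (hw : 0 < w) :
    ‖(w : ℂ) ^ s * (psi (v * w) : ℂ)‖ = w ^ s.re * |psi (v * w)| := by
  rw [norm_mul, Complex.norm_cpow_eq_rpow_re_of_pos hw, Complex.norm_real, Real.norm_eq_abs]

theorem cmeas (s : ℂ) (v : ℝ) : Measurable (fun w : ℝ => (w : ℂ) ^ s * (psi (v * w) : ℂ)) :=
  (cpow_meas s).mul (Complex.measurable_ofReal.comp (psi_meas.comp (measurable_const_mul v)))

theorem cint_scale (h1 : PsiBound) {s : ℂ} (hs0 : 0 < s.re) (hs1 : s.re < 1) {v : ℝ} (hv : 0 < v) :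
    IntegrableOn (fun w : ℝ => (w : ℂ) ^ s * (psi (v * w) : ℂ)) (Ioi 0) := by
  refine Integrable.mono' (rint_scale h1 (by linarith) hs1 hv).1 (cmeas s v).aestronglyMeasurable ?_
  filter_upwards [ae_restrict_mem measurableSet_Ioi] with w hw
  rw [cnorm hw]

theorem cint_eq {s : ℂ} {v : ℝ} (hv : 0 < v) :
    ∫ w in Ioi (0:ℝ), (w : ℂ) ^ s * (psi (v * w) : ℂ) = (v : ℂ) ^ (-s - 1) * Psi s := by
  have hvc : (v : ℂ) ≠ 0 := by exact_mod_cast hv.ne'
  have e : ∀ w ∈ Ioi (0:ℝ), (w : ℂ) ^ s * (psi (v * w) : ℂ)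
      = (v : ℂ) ^ (-s) * ((fun u : ℝ => (u : ℂ) ^ s * (psi u : ℂ)) (v * w)) := by
    intro w hw
    have e1 : (v : ℂ) ^ (-s) * (v : ℂ) ^ s = 1 := by
      rw [← Complex.cpow_add _ _ hvc]; simp
    simp only []
    rw [Complex.ofReal_mul, Complex.mul_cpow_ofReal_nonneg hv.le (le_of_lt hw)]
    calc (w : ℂ) ^ s * (psi (v * w) : ℂ)
        = ((v : ℂ) ^ (-s) * (v : ℂ) ^ s) * ((w : ℂ) ^ s * (psi (v * w) : ℂ)) := by
          rw [e1, one_mul]
      _ = _ := by ring
  rw [setIntegral_congr_fun measurableSet_Ioi e, integral_const_mul,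
    integral_comp_mul_left_Ioi (fun u : ℝ => (u : ℂ) ^ s * (psi u : ℂ)) 0 hv, mul_zero]
  unfold Psi
  rw [Complex.cpow_sub _ _ hvc, Complex.cpow_one, Complex.real_smul]
  push_cast
  field_simp

/-- the complementary kernel -/
noncomputable def hk (s : ℂ) (N v : ℝ) : ℂ :=
  ∫ w in Ioc (0:ℝ) (1 / N), (w : ℂ) ^ s * (psi (v * w) : ℂ)

theorem ker_add (h1 : PsiBound) {s : ℂ} (hs0 : 0 < s.re) (hs1 : s.re < 1) {N : ℝ} (hN : 1 ≤ N)
    {v : ℝ} (hv : 0 < v) : ker s N v = (v : ℂ) ^ (-s - 1) * Psi s - hk s N v := by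
  have hN1 : (0:ℝ) ≤ 1 / N := by positivity
  have hI := cint_scale h1 hs0 hs1 hv
  have e := setIntegral_union (f := fun w : ℝ => (w : ℂ) ^ s * (psi (v * w) : ℂ)) (μ := volume)
    (Ioc_disjoint_Ioi (le_refl (1 / N)) (a := (0:ℝ))) measurableSet_Ioi
    (hI.mono_set Ioc_subset_Ioi_self) (hI.mono_set (Ioi_subset_Ioi hN1))
  rw [Ioc_union_Ioi_eq_Ioi hN1, cint_eq hv] at e
  rw [e]
  unfold Pool.Agent.H295R2.Beu.ker hk
  ring

theorem psi_int (h1 : PsiBound) {w : ℝ} (hw : 0 < w) :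
    IntegrableOn (fun v : ℝ => |psi (v * w)|) (Ioi 0) ∧
    ∫ v in Ioi (0:ℝ), |psi (v * w)| = w⁻¹ * ∫ u in Ioi (0:ℝ), |psi u| := by
  have h := rint_scale h1 (β := 0) (by norm_num) (by norm_num) hw
  simp only [Real.rpow_zero, one_mul, neg_zero, zero_sub, Real.rpow_neg_one] at h
  have e : (fun v : ℝ => |psi (v * w)|) = fun v : ℝ => |psi (w * v)| := by
    funext v; rw [mul_comm]
  rw [e]
  exact h

theorem fr_bd (x : ℝ) : ‖((Int.fract x : ℝ) : ℂ)‖ ≤ 1 := by
  rw [Complex.norm_real, Real.norm_eq_abs, abs_of_nonneg (Int.fract_nonneg _)]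
  exact (Int.fract_lt_one _).le

theorem fr_meas (θ : ℝ) : Measurable (fun v : ℝ => ((Int.fract (θ * v) : ℝ) : ℂ)) := by
  have h : Measurable (fun v : ℝ => θ * v) := measurable_const_mul θ
  exact Complex.measurable_ofReal.comp (h.fract)

theorem inner_zero (h2 : PsiAnn) {θ w : ℝ} (hw : 0 < w) (hθ : w ≤ θ) :
    ∫ v in Ioi (0:ℝ), Int.fract (θ * v) * psi (v * w) = 0 := by
  have h := h2 (θ / w) ((one_le_div hw).2 hθ)
  have e := integral_comp_mul_left_Ioi (fun u : ℝ => Int.fract (θ / w * u) * psi u) 0 hw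
  rw [mul_zero, h, smul_zero] at e
  refine Eq.trans ?_ e
  refine setIntegral_congr_fun measurableSet_Ioi (fun v hv => ?_)
  have : θ / w * (w * v) = θ * v := by field_simp
  rw [this, mul_comm w v]

theorem fub (h1 : PsiBound) (h2 : PsiAnn) {s : ℂ} (hs0 : 0 < s.re) {N : ℝ}
    (hN : 1 ≤ N) {θ : ℝ} (hθ : 1 / N ≤ θ) :
    IntegrableOn (fun v : ℝ => ((Int.fract (θ * v) : ℝ) : ℂ) * hk s N v) (Ioi 0) ∧
    ∫ v in Ioi (0:ℝ), ((Int.fract (θ * v) : ℝ) : ℂ) * hk s N v = 0 := by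
  have hN1 : (0:ℝ) < 1 / N := by positivity
  set f : ℝ × ℝ → ℂ := fun p =>
    ((Int.fract (θ * p.1) : ℝ) : ℂ) * ((p.2 : ℂ) ^ s * (psi (p.1 * p.2) : ℂ)) with hf
  have hfm : Measurable f := by
    refine ((fr_meas θ).comp measurable_fst).mul (((cpow_meas s).comp measurable_snd).mul ?_)
    exact Complex.measurable_ofReal.comp (psi_meas.comp (measurable_fst.mul measurable_snd))
  have hbd : ∀ v w : ℝ, 0 < w → ‖f (v, w)‖ ≤ w ^ s.re * |psi (v * w)| := by
    intro v w hw
    have := fr_bd (θ * v)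
    simp only [hf]
    rw [norm_mul, cnorm hw]
    have h0 : 0 ≤ w ^ s.re * |psi (v * w)| :=
      mul_nonneg (Real.rpow_nonneg hw.le _) (abs_nonneg _)
    nlinarith
  have hint1 : ∀ w : ℝ, 0 < w → IntegrableOn (fun v => f (v, w)) (Ioi 0) := by
    intro w hw
    refine Integrable.mono' ((psi_int h1 hw).1.const_mul (w ^ s.re))
      (hfm.comp measurable_prodMk_right).aestronglyMeasurable ?_
    filter_upwards with v
    exact hbd v w hw
  have hfi : Integrable f ((volume.restrict (Ioi (0:ℝ))).prod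
      (volume.restrict (Ioc (0:ℝ) (1 / N)))) := by
    rw [integrable_prod_iff' hfm.aestronglyMeasurable]
    constructor
    · filter_upwards [ae_restrict_mem measurableSet_Ioc] with w hw
      exact hint1 w hw.1
    · have hdom : IntegrableOn (fun w : ℝ => (∫ u in Ioi (0:ℝ), |psi u|) * w ^ (s.re - 1))
          (Ioc 0 (1 / N)) :=
        ((intervalIntegrable_iff_integrableOn_Ioc_of_le hN1.le).1
          (intervalIntegral.intervalIntegrable_rpow' (by linarith))).const_mul _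
      refine Integrable.mono' hdom
        (hfm.norm.stronglyMeasurable.integral_prod_left').aestronglyMeasurable ?_
      filter_upwards [ae_restrict_mem measurableSet_Ioc] with w hw
      have hw0 : 0 < w := hw.1
      rw [Real.norm_eq_abs, abs_of_nonneg (integral_nonneg (fun _ => norm_nonneg _))]
      have : ∫ v in Ioi (0:ℝ), ‖f (v, w)‖ ≤ ∫ v in Ioi (0:ℝ), w ^ s.re * |psi (v * w)| := by
        refine integral_mono (hint1 w hw0).norm ((psi_int h1 hw0).1.const_mul _) ?_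
        intro v
        exact hbd v w hw0
      refine this.trans (le_of_eq ?_)
      rw [integral_const_mul, (psi_int h1 hw0).2, Real.rpow_sub hw0, Real.rpow_one]
      field_simp
  have hrw : ∀ v : ℝ, ((Int.fract (θ * v) : ℝ) : ℂ) * hk s N v
      = ∫ w in Ioc (0:ℝ) (1 / N), f (v, w) := by
    intro v
    unfold hk
    rw [← integral_const_mul]
  constructor
  · simp only [hrw]
    exact hfi.integral_prod_left
  · simp only [hrw]
    rw [integral_integral_swap (f := fun v w => f (v, w)) hfi]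
    have : ∀ w ∈ Ioc (0:ℝ) (1 / N), ∫ v in Ioi (0:ℝ), f (v, w) = 0 := by
      intro w hw
      have h0 := inner_zero h2 hw.1 (hw.2.trans hθ)
      have e : ∀ v : ℝ, f (v, w)
          = (w : ℂ) ^ s * ((Int.fract (θ * v) * psi (v * w) : ℝ) : ℂ) := by
        intro v
        simp only [hf]
        push_cast
        ring
      simp only [e]
      rw [integral_const_mul, integral_complex_ofReal, h0]
      simp
    rw [setIntegral_congr_fun measurableSet_Ioc this]
    simp

theorem kerAnn (h1 : PsiBound) (h2 : PsiAnn) (h3 : FractMellin) : KerAnn := by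
  intro s hs0 hs1 hz N hN
  refine ⟨-∫ v in Ioc (0:ℝ) 1, (v : ℂ) * ker s N v, ?_⟩
  intro θ hθ hθ1
  have hN1 : (0:ℝ) < 1 / N := by positivity
  have hθ0 : 0 < θ := lt_of_lt_of_le hN1 hθ
  obtain ⟨i1, e1⟩ := h3 s hs0 hs1 θ hθ0
  obtain ⟨i2, e2⟩ := fub h1 h2 hs0 hN hθ
  rw [hz] at e1
  have hpt : ∀ v ∈ Ioi (0:ℝ), ((Int.fract (θ * v) : ℝ) : ℂ) * ker s N v
      = ((Int.fract (θ * v) : ℝ) : ℂ) * (v : ℂ) ^ (-s - 1) * Psi s
        - ((Int.fract (θ * v) : ℝ) : ℂ) * hk s N v := by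
    intro v hv
    rw [ker_add h1 hs0 hs1 hN hv]
    ring
  have i3 : IntegrableOn (fun v : ℝ => ((Int.fract (θ * v) : ℝ) : ℂ) * ker s N v) (Ioi 0) := by
    have := (i1.mul_const (Psi s)).sub i2
    exact IntegrableOn.congr_fun this (fun v hv => (hpt v hv).symm) measurableSet_Ioi
  have e3 : ∫ v in Ioi (0:ℝ), ((Int.fract (θ * v) : ℝ) : ℂ) * ker s N v = 0 := by
    rw [setIntegral_congr_fun measurableSet_Ioi hpt,
      integral_sub (i1.mul_const (Psi s)) i2, e2, integral_mul_const, e1]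
    simp
  have e4 := setIntegral_union (f := fun v : ℝ => ((Int.fract (θ * v) : ℝ) : ℂ) * ker s N v)
    (μ := volume) (Ioc_disjoint_Ioi (le_refl (1:ℝ)) (a := (0:ℝ))) measurableSet_Ioi
    (i3.mono_set Ioc_subset_Ioi_self) (i3.mono_set (Ioi_subset_Ioi zero_le_one))
  rw [Ioc_union_Ioi_eq_Ioi zero_le_one, e3] at e4
  have e5 : ∫ v in Ioc (0:ℝ) 1, ((Int.fract (θ * v) : ℝ) : ℂ) * ker s N v
      = (θ : ℂ) * ∫ v in Ioc (0:ℝ) 1, (v : ℂ) * ker s N v := by
    rw [← integral_const_mul, integral_Ioc_eq_integral_Ioo, integral_Ioc_eq_integral_Ioo]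
    refine setIntegral_congr_fun measurableSet_Ioo (fun v hv => ?_)
    have : Int.fract (θ * v) = θ * v := by
      rw [Int.fract_eq_self]
      refine ⟨mul_nonneg hθ0.le hv.1.le, ?_⟩
      calc θ * v ≤ 1 * v := mul_le_mul_of_nonneg_right hθ1 hv.1.le
        _ < 1 := by rw [one_mul]; exact hv.2
    simp only [this]
    push_cast
    ring
  rw [e5] at e4
  linear_combination -e4

/-- Task A4a: everything. -/
theorem kerAll (h1 : PsiBound) (h2 : PsiAnn) (h3 : FractMellin) : KerMeas ∧ KerBound ∧ KerAnn :=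
  ⟨kerMeas, kerBound h1, kerAnn h1 h2 h3⟩

end Pool.Agent.H495R2.BeuA4
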