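import Mathlib

set_option autoImplicit false

/-! Quadratic polynomials `z ^ 2 + c` over the `p`-adic integers with finite critical orbit. -/

namespace Pool.Agent.H495R2.PCFQuad

open Function

/-- The quadratic map `z ↦ z ^ 2 + c`. -/
def q {R : Type*} [CommRing R] (c : R) (z : R) : R := z ^ 2 + c

lemma map_q_iter {R S : Type*} [CommRing R] [CommRing S] (φ : R →+* S) (c z : R) (n : ℕ) :
    φ ((q c)^[n] z) = (q (φ c))^[n] (φ z) := by
  induction n generalizing z with
  | zero => rfl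
  | succ n ih => rw [iterate_succ_apply, iterate_succ_apply, ih]; simp [q]

/-- Difference factorisation along an orbit. -/
lemma diff_iter {R : Type*} [CommRing R] (c y y' : R) (n : ℕ) :
    (q c)^[n] y - (q c)^[n] y' =
      (y - y') * ∏ i ∈ Finset.range n, ((q c)^[i] y + (q c)^[i] y') := by
  induction n with
  | zero => simp
  | succ n ih =>
    rw [Finset.prod_range_succ, ← mul_assoc, ← ih, iterate_succ_apply', iterate_succ_apply']
    simp only [q]; ring

section Lip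

variable {p : ℕ} [hp : Fact p.Prime]

/-- One-step estimate for maps close to the identity. -/
lemma iter_close (B : Set ℤ_[p]) (ρ : ℝ) (hρ0 : 0 ≤ ρ) (hρ : ρ ≤ 1) (g : ℤ_[p] → ℤ_[p])
    (hB : ∀ y ∈ B, g y ∈ B)
    (hg : ∀ y ∈ B, ∀ y' ∈ B, ‖g y - g y' - (y - y')‖ ≤ ρ * ‖y - y'‖) (x : ℤ_[p]) (hx : x ∈ B)
    (j : ℕ) : g^[j] x ∈ B ∧ ‖g^[j] x - x‖ ≤ ‖g x - x‖ ∧
      ‖g^[j] x - x - j * (g x - x)‖ ≤ ρ * ‖g x - x‖ := by
  induction j with
  | zero => simp [hx, mul_nonneg hρ0 (norm_nonneg (g x - x))]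
  | succ j ih =>
    obtain ⟨h1, h2, h3⟩ := ih
    rw [iterate_succ_apply']
    have h4 := hg _ h1 _ hx
    have h5 : ‖g (g^[j] x) - g x - (g^[j] x - x)‖ ≤ ρ * ‖g x - x‖ :=
      h4.trans (mul_le_mul_of_nonneg_left h2 hρ0)
    have h6 : ‖g (g^[j] x) - x - ((j + 1 : ℕ) : ℤ_[p]) * (g x - x)‖ ≤ ρ * ‖g x - x‖ := by
      have e : g (g^[j] x) - x - ((j + 1 : ℕ) : ℤ_[p]) * (g x - x) =
          (g (g^[j] x) - g x - (g^[j] x - x)) + (g^[j] x - x - j * (g x - x)) := by
        push_cast; ring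
      rw [e]
      exact (PadicInt.nonarchimedean _ _).trans (max_le h5 h3)
    refine ⟨hB _ h1, ?_, h6⟩
    have e : g (g^[j] x) - x = (g (g^[j] x) - x - ((j + 1 : ℕ) : ℤ_[p]) * (g x - x)) +
        ((j + 1 : ℕ) : ℤ_[p]) * (g x - x) := by ring
    rw [e]
    refine (PadicInt.nonarchimedean _ _).trans (max_le (h6.trans ?_) ?_)
    · exact mul_le_of_le_one_left (norm_nonneg _) hρ
    · rw [norm_mul]; exact mul_le_of_le_one_left (norm_nonneg _) (PadicInt.norm_le_one _)

lemma iter_lip (B : Set ℤ_[p]) (ρ : ℝ) (hρ : ρ ≤ 1) (hρ0 : 0 ≤ ρ) (g : ℤ_[p] → ℤ_[p])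
    (hB : ∀ y ∈ B, g y ∈ B)
    (hg : ∀ y ∈ B, ∀ y' ∈ B, ‖g y - g y' - (y - y')‖ ≤ ρ * ‖y - y'‖) (j : ℕ) :
    (∀ y ∈ B, g^[j] y ∈ B) ∧
      ∀ y ∈ B, ∀ y' ∈ B, ‖g^[j] y - g^[j] y' - (y - y')‖ ≤ ρ * ‖y - y'‖ := by
  induction j with
  | zero =>
    refine ⟨fun y hy => hy, fun y _ y' _ => ?_⟩
    simp only [iterate_zero, id, sub_self, norm_zero]
    exact mul_nonneg hρ0 (norm_nonneg _)
  | succ j ih =>
    obtain ⟨h1, h2⟩ := ih
    refine ⟨fun y hy => by rw [iterate_succ_apply']; exact hB _ (h1 y hy), fun y hy y' hy' => ?_⟩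
    rw [iterate_succ_apply', iterate_succ_apply']
    have h3 := hg _ (h1 y hy) _ (h1 y' hy')
    have h4 : ‖g^[j] y - g^[j] y'‖ ≤ ‖y - y'‖ := by
      have e : g^[j] y - g^[j] y' = (g^[j] y - g^[j] y' - (y - y')) + (y - y') := by ring
      rw [e]
      refine (PadicInt.nonarchimedean _ _).trans (max_le ((h2 y hy y' hy').trans ?_) le_rfl)
      exact mul_le_of_le_one_left (norm_nonneg _) hρ
    have e : g (g^[j] y) - g (g^[j] y') - (y - y') =
        (g (g^[j] y) - g (g^[j] y') - (g^[j] y - g^[j] y')) + (g^[j] y - g^[j] y' - (y - y')) := by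
      ring
    rw [e]
    refine (PadicInt.nonarchimedean _ _).trans (max_le (h3.trans ?_) (h2 y hy y' hy'))
    exact mul_le_mul_of_nonneg_left h4 hρ0

/-- Maps that are close to the identity have no nontrivial periodic points. -/
lemma fixed_of_periodic (B : Set ℤ_[p]) (ρ : ℝ) (hρ0 : 0 ≤ ρ) (hρ : ρ < ‖(p : ℤ_[p])‖) :
    ∀ k : ℕ, 0 < k → ∀ g : ℤ_[p] → ℤ_[p], (∀ y ∈ B, g y ∈ B) →
      (∀ y ∈ B, ∀ y' ∈ B, ‖g y - g y' - (y - y')‖ ≤ ρ * ‖y - y'‖) →
      ∀ x ∈ B, g^[k] x = x → g x = x := by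
  have hρ1 : ρ ≤ 1 := hρ.le.trans (PadicInt.norm_le_one _)
  -- the basic step
  have basic : ∀ j : ℕ, ρ < ‖(j : ℤ_[p])‖ → ∀ g : ℤ_[p] → ℤ_[p], (∀ y ∈ B, g y ∈ B) →
      (∀ y ∈ B, ∀ y' ∈ B, ‖g y - g y' - (y - y')‖ ≤ ρ * ‖y - y'‖) →
      ∀ x ∈ B, g^[j] x = x → g x = x := by
    intro j hj g hB hg x hx hjx
    have h := (iter_close B ρ hρ0 hρ1 g hB hg x hx j).2.2
    rw [hjx, sub_self, zero_sub, norm_neg, norm_mul] at h
    by_contra hne
    have hpos : 0 < ‖g x - x‖ := norm_pos_iff.2 (sub_ne_zero.2 hne)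
    exact absurd (le_of_mul_le_mul_right h hpos) (not_le.2 hj)
  intro k
  induction k using Nat.strong_induction_on with
  | _ k ih =>
    intro hk g hB hg x hx hkx
    by_cases hpk : p ∣ k
    · obtain ⟨m, rfl⟩ := hpk
      have hm : 0 < m := Nat.pos_of_mul_pos_left hk
      obtain ⟨h1, h2⟩ := iter_lip B ρ hρ1 hρ0 g hB hg p
      have h3 : g^[p] x = x := by
        refine ih m ?_ hm g^[p] h1 h2 x hx ?_
        · calc m = 1 * m := (one_mul m).symm
            _ < p * m := Nat.mul_lt_mul_of_pos_right hp.out.one_lt hm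
        · rw [← iterate_mul]; exact hkx
      exact basic p hρ g hB hg x hx h3
    · have h1 : ‖(k : ℤ_[p])‖ = 1 := by
        rw [PadicInt.norm_natCast_eq_one_iff, Nat.coprime_comm]
        exact (Nat.Prime.coprime_iff_not_dvd hp.out).2 hpk |>.symm
      exact basic k (by rw [h1]; exact lt_of_lt_of_le hρ (PadicInt.norm_le_one _)) g hB hg x hx hkx

end Lip

section Period

variable (p : ℕ) [hp : Fact p.Prime]

lemma toZModPow_eq_iff (n : ℕ) (x y : ℤ_[p]) :
    PadicInt.toZModPow n x = PadicInt.toZModPow n y ↔ ‖x - y‖ ≤ (p : ℝ) ^ (-n : ℤ) := by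
  rw [PadicInt.norm_le_pow_iff_mem_span_pow, ← PadicInt.ker_toZModPow, RingHom.mem_ker, map_sub,
    sub_eq_zero]

/-- A common multiple of the periods. -/
def bigN (p : ℕ) : ℕ := (p ^ 3).factorial * (p ^ 3).totient

lemma bigN_pos : 0 < bigN p :=
  Nat.mul_pos (Nat.factorial_pos _) (Nat.totient_pos.2 (pow_pos hp.out.pos 3))

/-- The period of every periodic point in `ℤ_[p]` divides a number depending only on `p`. -/
theorem period_bound (c x : ℤ_[p]) (hx : x ∈ periodicPts (q c)) : (q c)^[bigN p] x = x := by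
  classical
  obtain ⟨k, hk, hkx⟩ := hx
  have hkx' : (q c)^[k] x = x := hkx
  let φ := PadicInt.toZModPow (p := p) 3
  have : NeZero (p ^ 3) := ⟨(pow_pos hp.out.pos 3).ne'⟩
  have hper : φ x ∈ periodicPts (q (φ c)) :=
    ⟨k, hk, by change (q (φ c))^[k] (φ x) = φ x; rw [← map_q_iter, hkx']⟩
  have hN1 : (q (φ c))^[(p ^ 3).factorial] (φ x) = φ x := by
    have h := isPeriodicPt_factorial_card_of_mem_periodicPts hper
    rw [ZMod.card] at h
    exact h
  set N1 := (p ^ 3).factorial with hN1def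
  set t := (p ^ 3).totient with ht
  have htpos : 0 < t := Nat.totient_pos.2 (pow_pos hp.out.pos 3)
  -- the product of the differences modulo p^3
  let u : ZMod (p ^ 3) := ∏ i ∈ Finset.range N1, ((q (φ c))^[i] (φ x) + (q (φ c))^[i] (φ x))
  have hiter : ∀ j, (q (φ c))^[N1 * j] (φ x) = φ x := by
    intro j
    rw [iterate_mul]
    exact iterate_fixed hN1 j
  have hprod : ∀ j, ∏ i ∈ Finset.range (N1 * j),
      ((q (φ c))^[i] (φ x) + (q (φ c))^[i] (φ x)) = u ^ j := by
    intro j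
    induction j with
    | zero => simp
    | succ j ih =>
      rw [Nat.mul_succ, Finset.prod_range_add, ih, pow_succ u j]
      congr 1
      refine Finset.prod_congr rfl fun i _ => ?_
      rw [Nat.add_comm (N1 * j) i, iterate_add_apply, hiter]
  let B : Set ℤ_[p] := {y | φ y = φ x}
  let g : ℤ_[p] → ℤ_[p] := (q c)^[bigN p]
  have hgφ : ∀ y ∈ B, φ (g y) = φ x := by
    intro y hy
    have hy' : φ y = φ x := hy
    change φ ((q c)^[bigN p] y) = φ x
    rw [map_q_iter, hy']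
    exact hiter t
  let P : ℤ_[p] → ℤ_[p] → ℤ_[p] := fun y y' =>
    ∏ i ∈ Finset.range (bigN p), ((q c)^[i] y + (q c)^[i] y')
  have hdiff : ∀ y y', g y - g y' = (y - y') * P y y' := fun y y' => diff_iter c y y' _
  have hP : ∀ y ∈ B, ∀ y' ∈ B, φ (P y y') = u ^ t := by
    intro y hy y' hy'
    have e1 : φ y = φ x := hy
    have e2 : φ y' = φ x := hy'
    change φ (∏ i ∈ Finset.range (bigN p), ((q c)^[i] y + (q c)^[i] y')) = _
    rw [map_prod, ← hprod t]
    refine Finset.prod_congr rfl fun i _ => ?_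
    rw [map_add, map_q_iter, map_q_iter, e1, e2]
  have hgk : g^[k] x = x := by
    change ((q c)^[bigN p])^[k] x = x
    rw [← iterate_mul, Nat.mul_comm, iterate_mul]
    exact iterate_fixed hkx' _
  by_cases hu : IsUnit u
  · -- unit multiplier
    have hu1 : u ^ t = 1 := by
      obtain ⟨v, hv⟩ := hu
      rw [← hv, ← Units.val_pow_eq_pow_val, ZMod.pow_totient, Units.val_one]
    have hp1 : (1 : ℝ) < p := by exact_mod_cast hp.out.one_lt
    refine fixed_of_periodic B ((p : ℝ) ^ (-(3 : ℕ) : ℤ)) (by positivity) ?_ k hk g hgφ ?_ x rfl hgk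
    · rw [PadicInt.norm_p, ← zpow_neg_one]
      exact zpow_lt_zpow_right₀ hp1 (by norm_num)
    · intro y hy y' hy'
      have e : g y - g y' - (y - y') = (P y y' - 1) * (y - y') := by rw [hdiff]; ring
      rw [e, norm_mul]
      refine mul_le_mul_of_nonneg_right ?_ (norm_nonneg _)
      rw [← toZModPow_eq_iff p 3, map_one]
      exact (hP y hy y' hy').trans hu1
  · -- attracting
    have hlt : ∀ y ∈ B, ∀ y' ∈ B, ‖P y y'‖ < 1 := by
      intro y hy y' hy'
      refine lt_of_le_of_ne (PadicInt.norm_le_one _) fun h => hu ?_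
      have h1 : IsUnit (P y y') := PadicInt.isUnit_iff.2 h
      have h2 := h1.map φ
      rw [hP y hy y' hy'] at h2
      exact (isUnit_pow_iff htpos.ne').1 h2
    have hBj : ∀ j, g^[j] x ∈ B := by
      intro j
      induction j with
      | zero => rfl
      | succ j ih => rw [iterate_succ_apply']; exact hgφ _ ih
    by_contra hne
    have hne' : g x ≠ x := hne
    have hpos : 0 < ‖g x - x‖ := norm_pos_iff.2 (sub_ne_zero.2 hne')
    have hstep : ∀ j, ‖g^[j + 1] (g x) - g^[j + 1] x‖ < ‖g x - x‖ := by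
      intro j
      induction j with
      | zero =>
        rw [zero_add, iterate_one, hdiff, norm_mul]
        exact mul_lt_of_lt_one_right hpos (hlt _ (hBj 1) _ (hBj 0))
      | succ j ih =>
        rw [iterate_succ_apply' g (j + 1) (g x), iterate_succ_apply' g (j + 1) x, hdiff, norm_mul]
        refine lt_of_le_of_lt ?_ ih
        exact mul_le_of_le_one_right (norm_nonneg _) (PadicInt.norm_le_one _)
    obtain ⟨m, rfl⟩ : ∃ m, k = m + 1 := ⟨k - 1, by omega⟩
    have h := hstep m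
    rw [← iterate_succ_apply, iterate_succ_apply' g (m + 1) x, hgk] at h
    exact lt_irrefl _ h

end Period

section Tail

variable (p : ℕ) [hp : Fact p.Prime]

lemma inj_periodic {α : Type*} {f : α → α} {a b : α} (ha : a ∈ periodicPts f)
    (hb : b ∈ periodicPts f) {n : ℕ} (h : f^[n] a = f^[n] b) : a = b := by
  obtain ⟨k, hk, hka⟩ := ha
  obtain ⟨l, hl, hlb⟩ := hb
  have h1 : f^[(k * l) * n] a = a := by
    rw [Nat.mul_assoc, iterate_mul]; exact iterate_fixed hka _
  have h2 : f^[(k * l) * n] b = b := by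
    rw [Nat.mul_comm k l, Nat.mul_assoc, iterate_mul]; exact iterate_fixed hlb _
  have h3 : n ≤ (k * l) * n := Nat.le_mul_of_pos_left _ (Nat.mul_pos hk hl)
  obtain ⟨m, hm⟩ := Nat.exists_eq_add_of_le h3
  rw [hm, Nat.add_comm, iterate_add_apply] at h1 h2
  rw [← h1, ← h2, h]

lemma periodic_iter {α : Type*} {f : α → α} {a : α} (ha : a ∈ periodicPts f) (n : ℕ) :
    f^[n] a ∈ periodicPts f := by
  obtain ⟨k, hk, hka⟩ := ha
  exact ⟨k, hk, IsPeriodicPt.apply_iterate hka n⟩

lemma periodic_of_card {α : Type*} [Fintype α] (f : α → α) (a : α) (n : ℕ)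
    (hn : Fintype.card α ≤ n) : f^[n] a ∈ periodicPts f := by
  classical
  obtain ⟨i, j, hij, hne⟩ : ∃ i j : Fin (Fintype.card α + 1), i < j ∧ f^[i] a = f^[j] a := by
    obtain ⟨i, j, hne, h⟩ := Fintype.exists_ne_map_eq_of_card_lt
      (fun i : Fin (Fintype.card α + 1) => f^[i] a) (by simp)
    rcases lt_or_gt_of_ne hne with h' | h'
    · exact ⟨i, j, h', h⟩
    · exact ⟨j, i, h', h.symm⟩
  have h1 : f^[i] a ∈ periodicPts f := by
    refine ⟨j - i, by have := Fin.lt_def.1 hij; omega, ?_⟩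
    change f^[(j : ℕ) - i] (f^[i] a) = f^[i] a
    rw [← iterate_add_apply, Nat.sub_add_cancel (Fin.lt_def.1 hij).le]
    exact hne.symm
  have h2 : n = (n - i) + i := by have := i.2; omega
  rw [h2, iterate_add_apply]
  exact periodic_iter h1 _

/-- The tail of a finite critical orbit in `ℤ_[p]` has length at most `p`. -/
theorem tail_bound (c : ℤ_[p]) (t : ℕ) (ht : (q c)^[t] 0 ∈ periodicPts (q c)) :
    (q c)^[p] 0 ∈ periodicPts (q c) := by
  classical
  by_contra hcon
  -- minimal tail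
  have hex : ∃ t, (q c)^[t] (0 : ℤ_[p]) ∈ periodicPts (q c) := ⟨t, ht⟩
  obtain ⟨t0, ht0, hmin⟩ : ∃ t0, (q c)^[t0] (0 : ℤ_[p]) ∈ periodicPts (q c) ∧
      ∀ m < t0, (q c)^[m] (0 : ℤ_[p]) ∉ periodicPts (q c) :=
    ⟨Nat.find hex, Nat.find_spec hex, fun m hm => Nat.find_min hex hm⟩
  have hpt : p < t0 := by
    by_contra h
    apply hcon
    obtain ⟨d, hd⟩ : ∃ d, p = d + t0 := ⟨p - t0, by omega⟩
    have e : (q c)^[p] (0 : ℤ_[p]) = (q c)^[d] ((q c)^[t0] 0) := by
      rw [← iterate_add_apply]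
      exact congrArg (fun n => (q c)^[n] (0 : ℤ_[p])) hd
    rw [e]
    exact periodic_iter ht0 _
  obtain ⟨s, hs⟩ : ∃ s, t0 = s + 1 := ⟨t0 - 1, by have := hp.out.pos; omega⟩
  have hp2 := hp.out.two_le
  have hsp : p ≤ s := by omega
  -- the periodic preimage
  set z := (q c)^[s] (0 : ℤ_[p]) with hz
  have hznot : z ∉ periodicPts (q c) := hmin s (by omega)
  have hqz : q c z ∈ periodicPts (q c) := by
    rw [hs, iterate_succ_apply'] at ht0
    exact ht0
  obtain ⟨k, hk, hkz⟩ := hqz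
  have hkz' : (q c)^[k] (q c z) = q c z := hkz
  let w := (q c)^[k - 1] (q c z)
  have hw1 : w ∈ periodicPts (q c) := periodic_iter ⟨k, hk, hkz⟩ _
  have hw2 : q c w = q c z := by
    change q c ((q c)^[k - 1] (q c z)) = q c z
    rw [← iterate_succ_apply' (q c), show (k - 1).succ = k by omega]
    exact hkz'
  have hwz : w = -z := by
    have h1 : (w - z) * (w + z) = 0 := by
      have h2 : w ^ 2 + c = z ^ 2 + c := hw2
      linear_combination h2
    rcases mul_eq_zero.1 h1 with h2 | h2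
    · exact absurd (sub_eq_zero.1 h2 ▸ hw1) hznot
    · exact eq_neg_of_add_eq_zero_left h2
  -- go back along the cycle
  obtain ⟨l, hl, hlw⟩ := hw1
  have hlw' : (q c)^[l] w = w := hlw
  obtain ⟨m, hm⟩ : ∃ m, l * (s + 1) = s + m := by
    refine ⟨l * (s + 1) - s, ?_⟩
    have : s + 1 ≤ l * (s + 1) := Nat.le_mul_of_pos_left _ hl
    omega
  let w0 := (q c)^[m] w
  have hw0 : w0 ∈ periodicPts (q c) := periodic_iter ⟨l, hl, hlw⟩ _
  have hw0s : (q c)^[s] w0 = w := by
    change (q c)^[s] ((q c)^[m] w) = w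
    rw [← iterate_add_apply, ← hm, iterate_mul]
    exact iterate_fixed hlw' _
  -- reduction modulo p
  let φ := PadicInt.toZMod (p := p)
  have hφper : ∀ y : ℤ_[p], y ∈ periodicPts (q c) → φ y ∈ periodicPts (q (φ c)) := by
    rintro y ⟨k, hk, hky⟩
    refine ⟨k, hk, ?_⟩
    change (q (φ c))^[k] (φ y) = φ y
    rw [← map_q_iter]
    exact congrArg φ hky
  have hzper : φ z ∈ periodicPts (q (φ c)) := by
    rw [hz, map_q_iter]
    exact periodic_of_card _ _ _ (by rw [ZMod.card]; exact hsp)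
  have hzw : φ w = φ z := by
    refine inj_periodic (hφper w ⟨l, hl, hlw⟩) hzper (n := 1) ?_
    have := congrArg φ hw2
    simpa [q] using this
  have h0 : φ (0 : ℤ_[p]) ∈ periodicPts (q (φ c)) := by
    rcases hp.out.eq_two_or_odd' with h2 | hodd
    · -- p = 2: the reduction is a bijection
      have hinj : Injective (q (φ c)) := by
        have key : ∀ p : ℕ, p = 2 → ∀ c : ZMod p, Injective (q c) := by
          rintro p rfl
          have key2 : ∀ c a b : ZMod 2, a ^ 2 + c = b ^ 2 + c → a = b := by decide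
          intro c a b h
          exact key2 c a b h
        exact key p h2 _
      exact hinj.mem_periodicPts _
    · have h2 : (2 : ZMod p) * φ z = 0 := by
        have h3 : φ w = - φ z := by rw [hwz, map_neg]
        have h4 : φ z = - φ z := hzw ▸ h3
        rw [two_mul]
        nth_rewrite 2 [h4]
        exact add_neg_cancel _
      have h3 : (2 : ZMod p) ≠ 0 := by
        intro h
        have h4 : ((2 : ℕ) : ZMod p) = 0 := by exact_mod_cast h
        rw [ZMod.natCast_eq_zero_iff] at h4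
        have h5 := (Nat.prime_dvd_prime_iff_eq hp.out Nat.prime_two).1 h4
        rw [h5] at hodd
        exact absurd hodd (by decide)
      have h4 : φ z = 0 := (mul_eq_zero.1 h2).resolve_left h3
      rw [map_zero, ← h4]
      exact hzper
  have hw00 : φ w0 = 0 := by
    have h1 : φ w0 = φ 0 := by
      refine inj_periodic (hφper w0 hw0) h0 (n := s) ?_
      rw [← map_q_iter, ← map_q_iter, hw0s]
      exact hzw
    rw [h1, map_zero]
  have hnorm : ∀ y : ℤ_[p], φ y = 0 → ‖y‖ < 1 := by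
    intro y hy
    have h1 : y ∈ RingHom.ker (PadicInt.toZMod (p := p)) := hy
    rw [PadicInt.ker_toZMod] at h1
    exact PadicInt.mem_nonunits.1 h1
  have hw0lt : ‖w0‖ < 1 := hnorm _ hw00
  -- distances
  have hdist := diff_iter c 0 w0 s
  rw [hw0s, ← hz] at hdist
  obtain ⟨r, hr⟩ : ∃ r, s = r + 2 := ⟨s - 2, by omega⟩
  have hw0p : ‖w0‖ ≤ ‖(p : ℤ_[p])‖ := by
    have h1 : (p : ℤ_[p]) ∣ w0 := by
      rw [← Ideal.mem_span_singleton, ← PadicInt.maximalIdeal_eq_span_p, ← PadicInt.ker_toZMod]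
      exact hw00
    obtain ⟨v, hv⟩ := h1
    rw [hv, norm_mul]
    exact mul_le_of_le_one_right (norm_nonneg _) (PadicInt.norm_le_one _)
  have hp2' : ‖(p : ℤ_[p])‖ ≤ ‖(2 : ℤ_[p])‖ := by
    rcases hp.out.eq_two_or_odd' with h2 | hodd
    · have h3 : (p : ℤ_[p]) = 2 := by exact_mod_cast congrArg (Nat.cast : ℕ → ℤ_[p]) h2
      rw [h3]
    · have h1 : ‖((2 : ℕ) : ℤ_[p])‖ = 1 := by
        rw [PadicInt.norm_natCast_eq_one_iff]
        exact Nat.Coprime.symm (Nat.coprime_two_left.2 hodd)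
      have h2 : ‖(2 : ℤ_[p])‖ = 1 := by exact_mod_cast h1
      rw [h2]
      exact PadicInt.norm_le_one _
  have hle : ‖z - w‖ ≤ ‖w0‖ ^ 2 * ‖(2 : ℤ_[p])‖ := by
    rw [hdist, hr, Finset.prod_range_succ', Finset.prod_range_succ']
    simp only [zero_add, iterate_zero, id, iterate_one, zero_sub, norm_mul, norm_neg]
    have h1 : ‖q c 0 + q c w0‖ ≤ ‖(2 : ℤ_[p])‖ := by
      have e : q c 0 + q c w0 = 2 * c + w0 * w0 := by simp only [q]; ring
      rw [e]
      refine (PadicInt.nonarchimedean _ _).trans (max_le ?_ ?_)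
      · rw [norm_mul]; exact mul_le_of_le_one_right (norm_nonneg _) (PadicInt.norm_le_one _)
      · rw [norm_mul]
        exact (mul_le_of_le_one_right (norm_nonneg _) (PadicInt.norm_le_one _)).trans
          (hw0p.trans hp2')
    have h2 : ‖∏ i ∈ Finset.range r, ((q c)^[i + 1 + 1] 0 + (q c)^[i + 1 + 1] w0)‖ ≤ 1 :=
      PadicInt.norm_le_one _
    have h3 : 0 ≤ ‖w0‖ := norm_nonneg _
    calc ‖w0‖ * (‖∏ i ∈ Finset.range r, ((q c)^[i + 1 + 1] 0 + (q c)^[i + 1 + 1] w0)‖ *
          ‖q c 0 + q c w0‖ * ‖w0‖)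
        ≤ ‖w0‖ * (1 * ‖(2 : ℤ_[p])‖ * ‖w0‖) := by
          refine mul_le_mul_of_nonneg_left ?_ h3
          refine mul_le_mul_of_nonneg_right ?_ h3
          exact mul_le_mul h2 h1 (norm_nonneg _) zero_le_one
      _ = ‖w0‖ ^ 2 * ‖(2 : ℤ_[p])‖ := by ring
  have hz2 : z - w = -(2 * w) := by rw [hwz]; ring
  have hw_le : ‖w‖ ≤ ‖w0‖ ^ 2 := by
    have h1 : ‖z - w‖ = ‖(2 : ℤ_[p])‖ * ‖w‖ := by rw [hz2, norm_neg, norm_mul]
    rw [h1, mul_comm] at hle
    have h2 : 0 < ‖(2 : ℤ_[p])‖ := norm_pos_iff.2 two_ne_zero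
    exact le_of_mul_le_mul_right hle h2
  have hw1' : w ∈ periodicPts (q c) := ⟨l, hl, hlw⟩
  by_cases hw : φ w = 0
  · have hwlt : ‖w‖ < 1 := hnorm _ hw
    have hww0 : w = w0 := by
      by_contra hne
      have h1 := diff_iter c w w0 (bigN p)
      rw [period_bound p c w hw1', period_bound p c w0 hw0] at h1
      obtain ⟨b, hb⟩ : ∃ b, bigN p = b + 1 := ⟨bigN p - 1, by have := bigN_pos p; omega⟩
      rw [hb, Finset.prod_range_succ'] at h1
      simp only [iterate_zero, id] at h1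
      have h2 : ‖w - w0‖ = ‖w - w0‖ *
          (‖∏ i ∈ Finset.range b, ((q c)^[i + 1] w + (q c)^[i + 1] w0)‖ * ‖w + w0‖) := by
        rw [← norm_mul, ← norm_mul, ← h1]
      have h3 : 0 < ‖w - w0‖ := norm_pos_iff.2 (sub_ne_zero.2 hne)
      have h4 : ‖w + w0‖ < 1 :=
        lt_of_le_of_lt (PadicInt.nonarchimedean _ _) (max_lt hwlt hw0lt)
      have h5 : ‖∏ i ∈ Finset.range b, ((q c)^[i + 1] w + (q c)^[i + 1] w0)‖ * ‖w + w0‖ < 1 :=
        lt_of_le_of_lt (mul_le_of_le_one_left (norm_nonneg _) (PadicInt.norm_le_one _)) h4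
      have h6 := mul_lt_of_lt_one_right h3 h5
      rw [← h2] at h6
      exact lt_irrefl _ h6
    rw [hww0] at hw_le
    have h7 : w0 = 0 := by
      by_contra hne
      have h3 : 0 < ‖w0‖ := norm_pos_iff.2 hne
      have h4 : ‖w0‖ ^ 2 < ‖w0‖ := by
        rw [pow_two]; exact mul_lt_of_lt_one_right h3 hw0lt
      exact absurd hw_le (not_le.2 h4)
    apply hznot
    have h8 : z = w := by
      have h9 : w = 0 := hww0.trans h7
      have h10 : z = -w := by rw [hwz, neg_neg]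
      rw [h10, h9, neg_zero]
    rw [h8]
    exact hw1'
  · have h1 : ‖w‖ = 1 := by
      refine le_antisymm (PadicInt.norm_le_one _) (not_lt.1 fun h => hw ?_)
      have h2 : w ∈ RingHom.ker (PadicInt.toZMod (p := p)) := by
        rw [PadicInt.ker_toZMod]
        exact PadicInt.mem_nonunits.2 h
      exact h2
    rw [h1] at hw_le
    have h3 : ‖w0‖ ^ 2 < 1 := pow_lt_one₀ (norm_nonneg _) hw0lt (by norm_num)
    exact absurd hw_le (not_le.2 h3)

end Tail

section Finite

open Polynomial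

/-- The critical orbit as a polynomial in the parameter. -/
noncomputable def Phi (R : Type*) [CommRing R] : ℕ → R[X]
  | 0 => 0
  | n + 1 => Phi R n ^ 2 + X

lemma eval_Phi {R : Type*} [CommRing R] (c : R) (n : ℕ) : (Phi R n).eval c = (q c)^[n] 0 := by
  induction n with
  | zero => simp [Phi]
  | succ n ih => rw [iterate_succ_apply', ← ih]; simp [Phi, q]

lemma Phi_natDegree (R : Type*) [CommRing R] [Nontrivial R] (n : ℕ) :
    (Phi R (n + 1)).Monic ∧ (Phi R (n + 1)).natDegree = 2 ^ n := by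
  induction n with
  | zero => simp [Phi, monic_X]
  | succ n ih =>
    obtain ⟨h1, h2⟩ := ih
    have h3 : (Phi R (n + 1) ^ 2).Monic := h1.pow 2
    have h4 : (Phi R (n + 1) ^ 2).natDegree = 2 ^ (n + 1) := by
      rw [h1.natDegree_pow, h2]; ring
    have h5 : (X : R[X]).natDegree < (Phi R (n + 1) ^ 2).natDegree := by
      rw [h4, natDegree_X]; exact Nat.one_lt_two_pow (by omega)
    have h6 : (X : R[X]).degree < (Phi R (n + 1) ^ 2).degree := degree_lt_degree h5
    change (Phi R (n + 1) ^ 2 + X).Monic ∧ (Phi R (n + 1) ^ 2 + X).natDegree = _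
    exact ⟨h3.add_of_left h6, by rw [natDegree_add_eq_left_of_natDegree_lt h5, h4]⟩

lemma Phi_sub_ne_zero (R : Type*) [CommRing R] [Nontrivial R] (m k : ℕ) (hk : 0 < k) :
    Phi R (m + k) - Phi R m ≠ 0 := by
  intro h
  rw [sub_eq_zero] at h
  obtain ⟨k', rfl⟩ : ∃ k', k = k' + 1 := ⟨k - 1, by omega⟩
  have h1 := (Phi_natDegree R (m + k')).2
  rcases m with _ | m
  · rw [show 0 + k' + 1 = 0 + (k' + 1) by ring, h] at h1
    simp only [Phi, natDegree_zero] at h1
    exact absurd h1 (pow_pos two_pos _).ne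
  · have h2 := (Phi_natDegree R m).2
    rw [show m + 1 + k' + 1 = m + 1 + (k' + 1) by ring, h, h2] at h1
    have h3 := Nat.pow_right_injective (le_refl 2) h1
    omega

variable (p : ℕ) [hp : Fact p.Prime]

lemma norm_le_one_of_finite (c : ℚ_[p]) (h : (Set.range fun n : ℕ => (q c)^[n] 0).Finite) :
    ‖c‖ ≤ 1 := by
  by_contra hc
  rw [not_le] at hc
  have key : ∀ n : ℕ, ‖(q c)^[n + 1] 0‖ < ‖(q c)^[n + 2] 0‖ ∧ ‖c‖ ≤ ‖(q c)^[n + 1] 0‖ := by
    have step : ∀ z : ℚ_[p], ‖c‖ ≤ ‖z‖ → ‖z‖ < ‖q c z‖ := by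
      intro z hz
      have h1 : 1 < ‖z‖ := hc.trans_le hz
      have h2 : ‖c‖ < ‖z ^ 2‖ := by
        rw [norm_pow]
        calc ‖c‖ ≤ ‖z‖ := hz
          _ < ‖z‖ ^ 2 := by rw [pow_two]; exact lt_mul_of_one_lt_left (by linarith) h1
      have h3 : ‖q c z‖ = ‖z ^ 2‖ := by
        rw [q, Padic.add_eq_max_of_ne h2.ne', max_eq_left h2.le]
      rw [h3, norm_pow, pow_two]
      exact lt_mul_of_one_lt_left (by linarith) h1
    intro n
    induction n with
    | zero =>
      have h0 : (q c)^[0 + 1] 0 = c := by simp [q]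
      have h1 : (q c)^[0 + 2] 0 = q c c := by simp [q]
      rw [h0, h1]
      exact ⟨step c le_rfl, le_rfl⟩
    | succ n ih =>
      have h1 : ‖c‖ ≤ ‖(q c)^[n + 1 + 1] 0‖ := ih.2.trans ih.1.le
      refine ⟨?_, h1⟩
      rw [show n + 1 + 2 = (n + 1 + 1) + 1 by ring, iterate_succ_apply' (q c) (n + 1 + 1)]
      exact step _ h1
  have hmono : StrictMono fun n : ℕ => ‖(q c)^[n + 1] 0‖ := strictMono_nat_of_lt_succ fun n =>
    (key n).1
  have hinj : Injective fun n : ℕ => (q c)^[n + 1] (0 : ℚ_[p]) := by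
    intro a b hab
    exact hmono.injective (congrArg norm hab)
  refine Set.infinite_range_of_injective hinj (h.subset ?_)
  rintro _ ⟨n, rfl⟩
  exact ⟨n + 1, rfl⟩

/-- Only finitely many parameters `c : ℚ_[p]` have a finite critical orbit. -/
theorem finite_parameters :
    {c : ℚ_[p] | (Set.range fun n : ℕ => (q c)^[n] 0).Finite}.Finite := by
  classical
  have hne := Phi_sub_ne_zero ℚ_[p] p (bigN p) (bigN_pos p)
  refine ((Phi ℚ_[p] (p + bigN p) - Phi ℚ_[p] p).roots.toFinset.finite_toSet).subset ?_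
  intro c hc
  have hc1 : ‖c‖ ≤ 1 := norm_le_one_of_finite p c hc
  let c' : ℤ_[p] := ⟨c, hc1⟩
  have hcast : ∀ n, (((q c')^[n] 0 : ℤ_[p]) : ℚ_[p]) = (q c)^[n] 0 := by
    intro n
    have h := map_q_iter (PadicInt.Coe.ringHom (p := p)) c' 0 n
    rw [map_zero] at h
    exact h
  obtain ⟨t, ht⟩ : ∃ t, (q c')^[t] (0 : ℤ_[p]) ∈ periodicPts (q c') := by
    by_contra hcon
    push Not at hcon
    have hinj : Injective fun n : ℕ => (q c)^[n] (0 : ℚ_[p]) := by
      have h1 : Injective fun n : ℕ => (q c')^[n] (0 : ℤ_[p]) := by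
        have aux : ∀ a b : ℕ, a < b → (q c')^[a] (0 : ℤ_[p]) ≠ (q c')^[b] 0 := by
          intro a b hab h
          refine hcon a ⟨b - a, by omega, ?_⟩
          change (q c')^[b - a] ((q c')^[a] 0) = (q c')^[a] 0
          rw [← iterate_add_apply, Nat.sub_add_cancel hab.le]
          exact h.symm
        intro a b hab
        by_contra hne
        rcases lt_or_gt_of_ne hne with h | h
        · exact aux a b h hab
        · exact aux b a h hab.symm
      intro a b hab
      apply h1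
      apply Subtype.ext
      change (((q c')^[a] 0 : ℤ_[p]) : ℚ_[p]) = (((q c')^[b] 0 : ℤ_[p]) : ℚ_[p])
      rw [hcast, hcast]
      exact hab
    exact Set.infinite_range_of_injective hinj hc
  have h1 := tail_bound p c' t ht
  have h2 := period_bound p c' _ h1
  rw [← iterate_add_apply] at h2
  have h3 : (q c)^[p + bigN p] 0 = (q c)^[p] 0 := by
    rw [Nat.add_comm, ← hcast, ← hcast, h2]
  simp only [Multiset.mem_toFinset, Finset.mem_coe, mem_roots hne, IsRoot, eval_sub, eval_Phi]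
  rw [h3, sub_self]

end Finite

end Pool.Agent.H495R2.PCFQuad
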